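import Pool.Agent.Y269.EL.Stm2

/-!
A closed algebra of bounded operator valued functions is a C*-algebra.
-/

set_option autoImplicit false

noncomputable section

namespace Pool.Agent.Y257.EL

open Filter Topology Set
open scoped ENNReal
open Pool.Agent.Y269.EL

section

variable {H : Type} [NormedAddCommGroup H] [InnerProductSpace ℂ H] [CompleteSpace H]
variable [Nontrivial H]

/-- bounded functions -/
abbrev BF (H : Type) [NormedAddCommGroup H] [InnerProductSpace ℂ H] [CompleteSpace H]
    [Nontrivial H] (T : Type) : Type := lp (fun _ : T => (H →L[ℂ] H)) ∞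

instance (T : Type) : CStarAlgebra (BF H T) where

/-- evaluation -/
def evBF (T : Type) (t : T) : BF H T →⋆ₐ[ℂ] (H →L[ℂ] H) where
  toFun x := x t
  map_one' := rfl
  map_mul' _ _ := rfl
  map_zero' := rfl
  map_add' _ _ := rfl
  commutes' _ := rfl
  map_star' _ := rfl

lemma evBF_norm (T : Type) (t : T) (x : BF H T) : ‖evBF T t x‖ ≤ ‖x‖ :=
  lp.norm_apply_le_norm ENNReal.top_ne_zero x t

/-- the functions of `K` as a star subalgebra -/
def SK {T : Type} {K : Set (T → (H →L[ℂ] H))} (hK : IsFA K) : StarSubalgebra ℂ (BF H T) where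
  carrier := {x | (fun t => evBF T t x) ∈ K}
  mul_mem' := by
    intro a b ha hb
    have h := hK.mul _ ha _ hb
    simpa only [mem_ofPred_eq, map_mul] using h
  add_mem' := by
    intro a b ha hb
    have h := hK.add _ ha _ hb
    simpa only [mem_ofPred_eq, map_add] using h
  algebraMap_mem' := by
    intro c
    have h := hK.scal c
    have h2 : (fun t => evBF (H := H) T t (algebraMap ℂ (BF H T) c)) =
        fun _ => c • (1 : H →L[ℂ] H) := by
      funext t
      rw [Algebra.algebraMap_eq_smul_one, map_smul, map_one]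
    simp only [mem_ofPred_eq]
    rw [h2]
    exact h
  star_mem' := by
    intro a ha
    have h := hK.star _ ha
    simpa only [mem_ofPred_eq, map_star] using h

lemma mem_SK {T : Type} {K : Set (T → (H →L[ℂ] H))} (hK : IsFA K) (x : BF H T) :
    x ∈ SK hK ↔ (fun t => evBF T t x) ∈ K := Iff.rfl

lemma SK_closed {T : Type} {K : Set (T → (H →L[ℂ] H))} (hK : IsFA K) :
    IsClosed (SK hK : Set (BF H T)) := by
  rw [← isSeqClosed_iff_isClosed]
  intro u x hu hx
  show (fun t => evBF T t x) ∈ K
  apply hK.lim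
  intro ε hε
  obtain ⟨N, hN⟩ := (Metric.tendsto_atTop.1 hx) ε hε
  refine ⟨_, hu N, fun t => ?_⟩
  have h1 := hN N le_rfl
  rw [dist_eq_norm] at h1
  have h2 : evBF T t x - evBF T t (u N) = evBF T t (x - u N) := by rw [map_sub]
  rw [h2]
  refine (evBF_norm T t _).trans ?_
  rw [norm_sub_rev]
  exact h1.le

end

/-- job FA -/
theorem fa (H : Type) [NormedAddCommGroup H] [InnerProductSpace ℂ H] [CompleteSpace H]
    [Nontrivial H] : FaStmt H := by
  intro T K hK
  have : IsClosed ((SK hK : StarSubalgebra ℂ (BF H T)) : Set (BF H T)) := SK_closed hK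
  refine ⟨{
    E := SK hK
    inst := inferInstance
    ev := fun t => (evBF T t).comp (SK hK).subtype
    norm_le := ?_
    mem := ?_
    surj := ?_ }⟩
  · intro x C hC h
    have h1 : ‖(x : BF H T)‖ ≤ C := lp.norm_le_of_forall_le hC h
    exact h1
  · intro x
    exact x.2
  · intro F hF
    obtain ⟨C, hC⟩ := hK.bdd F hF
    have hm : Memℓp F ∞ := by
      rw [memℓp_infty_iff]
      refine ⟨C, ?_⟩
      rintro _ ⟨t, rfl⟩
      exact hC t
    refine ⟨⟨(⟨F, hm⟩ : BF H T), ?_⟩, fun t => rfl⟩
    exact hF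

end Pool.Agent.Y257.EL
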