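import Pool.Agent.Y269.EL.Stm2

/-!
Core algebras are not purely infinite.
-/

set_option autoImplicit false

namespace Pool.Agent.Y257.EL

open Filter Topology Set
open Pool.Agent.Y269.EL
open Pool.Agent.Y269.ElliottDef

/-- job NPI -/
theorem npi : NpiStmt := by
  intro A _ hA hp
  obtain ⟨hs, -, x, hx, hy⟩ := hA
  obtain ⟨-, h2⟩ := hp
  have hb : star x * x ≠ 0 := by
    intro h
    exact hx ((CStarRing.star_mul_self_eq_zero_iff x).1 h)
  have h1 : (1 : A) ∈ closedIdeal (star x * x) := by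
    intro J hJ
    obtain ⟨hJ, hbJ⟩ := hJ
    let I : TwoSidedIdeal A := TwoSidedIdeal.mk' J hJ.zero_mem
      (fun {a b} ha hb => hJ.add_mem a ha b hb)
      (fun {a} ha => by
        have := hJ.smul_mem (-1) a ha
        simpa using this)
      (fun {a b} hb => hJ.mul_mem_left a b hb)
      (fun {a b} ha => hJ.mul_mem_right b a ha)
    have hI : ∀ y, y ∈ I ↔ y ∈ J := by
      intro y
      exact TwoSidedIdeal.mem_mk' _ _ _ _ _ _ y
    have hI2 : I = ⊥ ∨ I = ⊤ := hs.simple.eq_bot_or_eq_top I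
    rcases hI2 with h | h
    · exfalso
      have h3 : star x * x ∈ I := (hI _).2 hbJ
      rw [h] at h3
      exact hb ((TwoSidedIdeal.mem_bot A).1 h3)
    · rw [← hI, h]
      trivial
  have h3 := h2 1 (star x * x) ⟨1, by simp⟩ ⟨x, rfl⟩ h1
  obtain ⟨r, hr⟩ := h3
  obtain ⟨N, hN⟩ := (Metric.tendsto_atTop.1 hr) 1 one_pos
  have h4 := hN N le_rfl
  rw [dist_eq_norm, norm_sub_rev] at h4
  exact absurd h4 (not_lt.2 (hy (r N)))

end Pool.Agent.Y257.EL
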