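import Pool.Agent.Y269.EL.Stm2

/-!
Obstruction from the Borsuk-Ulam theorem.
-/

set_option autoImplicit false

namespace Pool.Agent.Y257.EL

open Filter Topology Set
open scoped InnerProductSpace
open Pool.Agent.Y269.EL

/-- job OBS -/
theorem obs (H : Type) [NormedAddCommGroup H] [InnerProductSpace ℂ H] [CompleteSpace H]
    (hB : BUStmt) (hI : IseStmt H) : ObsStmt H := by
  intro A G hG F hF Y hY e
  obtain ⟨I, l, J, ρ, hρ, hk⟩ := hF.zero
  have h1 : (1 : H →L[ℂ] H) ∈ GM A := (GM A).one_mem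
  have h0 : (0 : ℝ) ∈ Icc (0 : ℝ) 1 := ⟨le_rfl, zero_le_one⟩
  have hmap : ∀ w ∈ XX G.d, ((0 : ℝ), w, w, (1 : H →L[ℂ] H)) ∈ Dom A G.d := by
    intro w hw
    exact ⟨h0, hw, hw, h1⟩
  have hcont : ContinuousOn (fun w : Pt => (star (Y 0 w w 1)) e) (XX G.d) := by
    have h2 := hY.sc.cont' e
    have h3 : Continuous (fun w : Pt => ((0 : ℝ), w, w, (1 : H →L[ℂ] H))) :=
      continuous_const.prodMk (continuous_id.prodMk (continuous_id.prodMk continuous_const))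
    exact ContinuousOn.comp (f := fun w : Pt => ((0 : ℝ), w, w, (1 : H →L[ℂ] H)))
      h2 h3.continuousOn hmap
  have hinv : ∀ w ∈ XX G.d, ∀ k, Y 0 (flp k w) (flp k w) 1 = Y 0 w w 1 := by
    intro w hw k
    have hw' : flp k w ∈ XX G.d := hI.flp G.d w hw k
    rw [hY.ev1 0 h0 w hw (flp k w) hw' 1 h1 k, hY.ev2 0 h0 w hw w hw 1 h1 k]
  obtain ⟨w, hw, hz⟩ := hB G.d G.cap G.dep G.an hG.d_pos hG.cap_le hG.self_mem hG.dep_lt
    hG.an_trans I l J (fun r w => ⟪ρ r w, (star (Y 0 w w 1)) e⟫_ℂ) hρ.lead.mem hρ.lead.sub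
    hρ.lead.count (fun r => (hρ.cont r).inner hcont) (by
      intro r w hw k
      show ⟪ρ r (flp k w), (star (Y 0 (flp k w) (flp k w) 1)) e⟫_ℂ =
        sg (J r) k * ⟪ρ r w, (star (Y 0 w w 1)) e⟫_ℂ
      rw [hρ.par r w hw k, hinv w hw k, inner_smul_left]
      congr 1
      unfold sg
      split_ifs <;> simp)
  exact ⟨w, hw, hk w hw _ hz⟩

end Pool.Agent.Y257.EL
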